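import Pool.Agent.Q81.TF.Stm

/-! Project TF (helper81), job TF-FWD: the forward estimate `S_FWD`. -/

open Set MeasureTheory Filter Topology

namespace Pool.Agent.Q177.TF

open Pool.Agent.Q81.TF

variable {n x0 x1 t1 t2 : ℝ} {W D : Set (ℝ × ℝ)} {s : ℝ → ℝ} {g h1 h2 h3 ht : ℝ × ℝ → ℝ}
variable {b : ℝ} {ζ ζ1 : ℝ → ℝ}

theorem zc0 (Z : ZCut b ζ ζ1) : Continuous ζ :=
  continuous_iff_continuousAt.2 fun x => (Z.d0 x).continuousAt

theorem kLc (F : Flow n x0 x1 t1 t2 W D s g h1 h3 ht) (hDW : D ⊆ W) (hb : 0 < b)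
    (Z : ZCut b ζ ζ1) : ContinuousOn (kL n x0 x1 t1 t2 g ζ) (Icc x0 x1 ×ˢ Icc t1 t2) :=
  F.labCut hb (zc0 Z) (fun v hv => (Z.lo v hv).1) (F.uD_cont hDW _)

theorem kLtc (F : Flow n x0 x1 t1 t2 W D s g h1 h3 ht) (hDW : D ⊆ W) (hb : 0 < b)
    (Z : ZCut b ζ ζ1) :
    ContinuousOn (kLt n x0 x1 t1 t2 g h3 ht ζ ζ1) (Icc x0 x1 ×ˢ Icc t1 t2) := by
  unfold kLt
  apply ContinuousOn.add
  · apply ContinuousOn.neg
    exact F.labCut hb Z.c1 (fun v hv => (Z.lo v hv).2)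
      ((F.powCont hDW).mul (F.uD_cont hDW _))
  · exact F.labCut hb (zc0 Z) (fun v hv => (Z.lo v hv).1)
      (continuousOn_const.mul ((F.uD_cont hDW _).mul F.ht_cont))

theorem sl_int {u : ℝ × ℝ → ℝ} (hu : ContinuousOn u (Icc x0 x1 ×ˢ Icc t1 t2)) {τ p q : ℝ}
    (hτ : τ ∈ Icc t1 t2) (hp : p ∈ Icc x0 x1) (hq : q ∈ Icc x0 x1) :
    IntervalIntegrable (fun x => u (x, τ)) volume p q := by
  apply ContinuousOn.intervalIntegrable
  exact (slice_c hu hτ).mono (uIcc_subset_Icc hp hq)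

theorem prim_c (hx : x0 ≤ x1) {u : ℝ × ℝ → ℝ} (hu : ContinuousOn u (Icc x0 x1 ×ˢ Icc t1 t2))
    {τ : ℝ} (hτ : τ ∈ Icc t1 t2) :
    ContinuousOn (fun x => ∫ y in x0..x, u (y, τ)) (Icc x0 x1) := by
  have hi : IntegrableOn (fun y => u (y, τ)) (uIcc x0 x1) volume := by
    rw [uIcc_of_le hx]
    exact (slice_c hu hτ).integrableOn_Icc
  have h := intervalIntegral.continuousOn_primitive_interval hi
  rwa [uIcc_of_le hx] at h

theorem kL_nn (F : Flow n x0 x1 t1 t2 W D s g h1 h3 ht) (Z : ZCut b ζ ζ1) {x τ : ℝ}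
    (hx : x ∈ Icc x0 x1) (hτ : τ ∈ Icc t1 t2) : 0 ≤ kL n x0 x1 t1 t2 g ζ (x, τ) :=
  mul_nonneg (Z.range _).1 (Real.rpow_nonneg (F.g_nonneg (F.R_sub x hx τ hτ)) _)

theorem RL_diff (F : Flow n x0 x1 t1 t2 W D s g h1 h3 ht) (hDW : D ⊆ W) (hb : 0 < b)
    (Z : ZCut b ζ ζ1) {x y τ : ℝ} (hx : x ∈ Icc x0 x1) (hy : y ∈ Icc x0 x1)
    (hτ : τ ∈ Icc t1 t2) :
    RL n x0 x1 t1 t2 g ζ (y, τ) - RL n x0 x1 t1 t2 g ζ (x, τ) =
      ∫ u in x..y, kL n x0 x1 t1 t2 g ζ (u, τ) := by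
  have hc := kLc F hDW hb Z
  have hx0 : x0 ∈ Icc x0 x1 := ⟨le_rfl, F.hx.le⟩
  exact intervalIntegral.integral_interval_sub_left (sl_int hc hτ hx0 hy) (sl_int hc hτ hx0 hx)

theorem RL_nn (F : Flow n x0 x1 t1 t2 W D s g h1 h3 ht) (Z : ZCut b ζ ζ1) {x τ : ℝ}
    (hx : x ∈ Icc x0 x1) (hτ : τ ∈ Icc t1 t2) : 0 ≤ RL n x0 x1 t1 t2 g ζ (x, τ) := by
  unfold RL
  apply intervalIntegral.integral_nonneg hx.1
  intro u hu
  exact kL_nn F Z ⟨hu.1, hu.2.trans hx.2⟩ hτ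

theorem RL_mono (F : Flow n x0 x1 t1 t2 W D s g h1 h3 ht) (hDW : D ⊆ W) (hb : 0 < b)
    (Z : ZCut b ζ ζ1) {x y τ : ℝ} (hx : x ∈ Icc x0 x1) (hy : y ∈ Icc x0 x1) (hxy : x ≤ y)
    (hτ : τ ∈ Icc t1 t2) :
    RL n x0 x1 t1 t2 g ζ (x, τ) ≤ RL n x0 x1 t1 t2 g ζ (y, τ) := by
  have h := RL_diff F hDW hb Z hx hy hτ
  have h2 : 0 ≤ ∫ u in x..y, kL n x0 x1 t1 t2 g ζ (u, τ) := by
    apply intervalIntegral.integral_nonneg hxy
    intro u hu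
    exact kL_nn F Z ⟨hx.1.trans hu.1, hu.2.trans hy.2⟩ hτ
  linarith

theorem RL_zero (F : Flow n x0 x1 t1 t2 W D s g h1 h3 ht) (Z : ZCut b ζ ζ1) {x τ : ℝ}
    (hx : x ∈ Icc x0 x1) (hm : mF x0 x1 t1 t2 g (x, τ) ≤ b) :
    RL n x0 x1 t1 t2 g ζ (x, τ) = 0 := by
  have h : ∫ y in x0..x, kL n x0 x1 t1 t2 g ζ (y, τ) = ∫ _y in x0..x, (0 : ℝ) := by
    apply intervalIntegral.integral_congr
    intro y hy
    rw [uIcc_of_le hx.1] at hy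
    have h1 := F.mF_mono (τ := τ) hy.1 hy.2
    simp only [kL]
    rw [(Z.lo _ (h1.trans hm)).1, zero_mul]
  unfold RL
  simp only
  rw [h, intervalIntegral.integral_zero]

/-- the estimate at one time -/
theorem time_est (S : Sit n x0 x1 t1 t2 W D s g h1 h2 h3 ht) (hSLA : S_SLA)
    {C B M c Pm Gm Hm r θ b00 : ℝ} {Fr w w1 : ℝ → ℝ} (hC : 1 ≤ C)
    (hWS : ∀ (a0 a E b N H Pm : ℝ) (f f1 f2 f3 m ζ ζ1 : ℝ → ℝ),
      Prof n a0 a E f f1 f2 f3 → (∀ x ∈ Ioc a0 a, HasDerivAt m (f x) x) →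
      (∀ e > 0, ∃ r > a0, ∀ x ∈ Ioo a0 r, m x < e) → (∀ x ∈ Ioc a0 a, 0 < m x) →
      |f1 a| ≤ Pm → 0 < b → b ≤ 1 → 1 ≤ N → ZCut b ζ ζ1 → ∀ x ∈ Ioc a0 a, b < m x →
      (∀ y ∈ Ioc a0 x, m y ≤ 3 * b → f y ≤ H) →
      (∀ y ∈ Ioc a0 x, ∫ u in y..x, ζ (m u) * f u ^ (2 - n) ≤ 2 * N) →
      Real.sqrt (ζ (m x)) * f1 x ^ 2 ≤ C * (H ^ 4 / b ^ 2 +
        (1 + E) * (Real.sqrt N + b ^ (-(2 * (n - 3) / (n + 7)))) + Pm ^ 2))
    (hEPS : ∀ b H E l : ℝ, 0 < b → b ≤ r → 0 ≤ H → H ≤ r → 0 ≤ E → 0 ≤ l → l ≤ x1 - x0 →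
      50 * (n ^ 2 * B * (Pm ^ 2 / b ^ (-(3 : ℝ)) + Yb n C E b H Pm / b ^ (-(3 : ℝ)) +
        l * (Yb n C E b H Pm * H) / (b ^ (-(3 : ℝ)) * b) +
        (1 + l * H / b) * Real.sqrt (E / b ^ (-(3 : ℝ))))) ≤ θ * (1 + E))
    (hHSM : ∀ x ∈ Icc x0 x1, ∀ t ∈ Icc t1 t2, mF x0 x1 t1 t2 g (x, t) ≤ b00 → g (x, t) ≤ r)
    (Bd : Bds n x0 x1 t1 t2 g h1 h2 h3 M c Pm Gm Hm) (hB : 0 ≤ B) (hr : 0 < r)
    (hb : 0 < b) (hb1 : b ≤ 1) (hbr : b ≤ r) (hb3 : 3 * b ≤ b00) (Z : ZCut b ζ ζ1)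
    (FC : FCut B (b ^ (-(3 : ℝ))) Fr w w1) {τ : ℝ} (hτ : τ ∈ Icc t1 t2)
    (hbm : b ≤ mF x0 x1 t1 t2 g (x1, τ))
    (hint : IntegrableOn (fun x => D.indicator (Fd n g h3) (x, τ)) (Ioc x0 x1)) :
    ∫ x in x0..x1, w (RL n x0 x1 t1 t2 g ζ (x, τ)) *
      ∫ y in x0..x, kLt n x0 x1 t1 t2 g h3 ht ζ ζ1 (y, τ) ≤
      θ * (1 + eV n x0 x1 D univ g h3 τ) := by
  have F := S.F
  have J := S.J
  have hDW := S.DW
  have hn := S.hn
  have hst := F.s_mem τ hτ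
  have hx1m : x1 ∈ Icc x0 x1 := ⟨F.hx.le, le_rfl⟩
  have hx0m : x0 ∈ Icc x0 x1 := ⟨le_rfl, F.hx.le⟩
  have P := F.prof J hτ hint
  have hE := P.E_nonneg
  have hN : (1 : ℝ) ≤ b ^ (-(3 : ℝ)) := by
    rw [Real.rpow_neg hb.le]
    have h1 : b ^ (3 : ℝ) ≤ 1 := Real.rpow_le_one hb.le hb1 (by norm_num)
    have h2 : 0 < b ^ (3 : ℝ) := Real.rpow_pos_of_pos hb _
    exact (one_le_inv₀ h2).2 h1
  obtain ⟨p, hp, hmp⟩ := F.label_ex hτ hx1m hb hbm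
  have hpm : p ∈ Icc x0 x1 := ⟨hst.1.le.trans hp.1.le, hp.2⟩
  have hD := F.slD hτ hp.1 (le_refl x1)
  have hsub : ∀ x ∈ Icc p x1, x ∈ Icc x0 x1 := fun x hx => ⟨hpm.1.trans hx.1, hx.2⟩
  have hY0 : 0 ≤ Yb n C (eV n x0 x1 D univ g h3 τ) b r Pm := by
    unfold Yb
    have h1 : 0 ≤ b ^ (-(2 * (n - 3) / (n + 7))) := Real.rpow_nonneg hb.le _
    have h2 := Real.sqrt_nonneg (b ^ (-(3 : ℝ)))
    have h3 : 0 ≤ (1 + eV n x0 x1 D univ g h3 τ) *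
        (Real.sqrt (b ^ (-(3 : ℝ))) + b ^ (-(2 * (n - 3) / (n + 7)))) :=
      mul_nonneg (by linarith) (add_nonneg h2 h1)
    have h4 : 0 ≤ r ^ 4 / b ^ 2 := by positivity
    have h5 : 0 ≤ Pm ^ 2 := sq_nonneg _
    exact mul_nonneg (by linarith) (by linarith)
  have hR : ∀ x ∈ Icc p x1, RL n x0 x1 t1 t2 g ζ (x, τ) =
      ∫ y in p..x, ζ (mF x0 x1 t1 t2 g (y, τ)) * g (y, τ) ^ (2 - n) := by
    intro x hx
    have h1 := RL_diff F hDW hb Z hpm (hsub x hx) hτ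
    rw [RL_zero F Z hpm hmp.le, sub_zero] at h1
    exact h1
  have SLx : SL n p x1 (eV n x0 x1 D univ g h3 τ) b (b ^ (-(3 : ℝ))) r
      (Yb n C (eV n x0 x1 D univ g h3 τ) b r Pm) (fun x => g (x, τ)) (fun x => h1 (x, τ))
      (fun x => h2 (x, τ)) (fun x => h3 (x, τ)) (fun x => ht (x, τ))
      (fun x => mF x0 x1 t1 t2 g (x, τ)) (fun x => RL n x0 x1 t1 t2 g ζ (x, τ)) ζ ζ1 := by
    refine ⟨P.seg hp.1 hp.2 le_rfl, hn, fun x hx => F.label_dx (hsub x hx) hτ,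
      fun x hx => F.d_q (x, τ) (hD x hx), ?_, hmp, hb, hN, Z, hR, hr.le, ?_, hY0, ?_⟩
    · exact F.ht_cont.comp (show Continuous fun x : ℝ => (x, τ) by fun_prop).continuousOn
        (fun x hx => hD x hx)
    · intro x hx hm
      exact hHSM x (hsub x hx) τ hτ (by
        have : mF x0 x1 t1 t2 g (x, τ) ≤ 2 * b := hm
        linarith)
    · intro x hx hRx
      have hxs : x ∈ Ioc (s τ) x1 := ⟨hp.1.trans_le hx.1, hx.2⟩
      rcases lt_or_ge b (mF x0 x1 t1 t2 g (x, τ)) with hbx | hbx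
      · have h := hWS (s τ) x1 (eV n x0 x1 D univ g h3 τ) b (b ^ (-(3 : ℝ))) r Pm
          (fun x => g (x, τ)) (fun x => h1 (x, τ)) (fun x => h2 (x, τ)) (fun x => h3 (x, τ))
          (fun x => mF x0 x1 t1 t2 g (x, τ)) ζ ζ1 P
          (fun y hy => F.label_dx ⟨hst.1.le.trans hy.1.le, hy.2⟩ hτ) (F.mlim hτ)
          (fun y hy => F.mF_pos ⟨hst.1.le.trans hy.1.le, hy.2⟩ hτ hy.1) (Bd.hPm τ hτ) hb hb1 hN Z
          x hxs hbx
          (fun y hy hm => hHSM y ⟨hst.1.le.trans hy.1.le, hy.2.trans hx.2⟩ τ hτ (by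
            have : mF x0 x1 t1 t2 g (y, τ) ≤ 3 * b := hm
            linarith))
          (fun y hy => by
            have hym : y ∈ Icc x0 x1 := ⟨hst.1.le.trans hy.1.le, hy.2.trans hx.2⟩
            have h1 := RL_diff F hDW hb Z hym (hsub x hx) hτ
            have h2 := RL_nn F Z hym hτ
            have h3 : ∫ u in y..x, ζ (mF x0 x1 t1 t2 g (u, τ)) * g (u, τ) ^ (2 - n) =
                ∫ u in y..x, kL n x0 x1 t1 t2 g ζ (u, τ) := rfl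
            have h4 : RL n x0 x1 t1 t2 g ζ (x, τ) ≤ 2 * b ^ (-(3 : ℝ)) := hRx
            show ∫ u in y..x, ζ (mF x0 x1 t1 t2 g (u, τ)) * g (u, τ) ^ (2 - n) ≤
              2 * b ^ (-(3 : ℝ))
            rw [h3, ← h1]
            linarith)
        exact h
      · have hz : ζ (mF x0 x1 t1 t2 g (x, τ)) = 0 := (Z.lo _ hbx).1
        simp only [hz, Real.sqrt_zero, zero_mul]
        exact hY0
  have key := hSLA n p x1 (eV n x0 x1 D univ g h3 τ) b (b ^ (-(3 : ℝ))) r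
      (Yb n C (eV n x0 x1 D univ g h3 τ) b r Pm) B Pm (fun x => g (x, τ)) (fun x => h1 (x, τ))
      (fun x => h2 (x, τ)) (fun x => h3 (x, τ)) (fun x => ht (x, τ))
      (fun x => mF x0 x1 t1 t2 g (x, τ)) (fun x => RL n x0 x1 t1 t2 g ζ (x, τ)) ζ ζ1 Fr w w1 hB SLx
      FC (Bd.hPm τ hτ)
  have key2 := hEPS b r (eV n x0 x1 D univ g h3 τ) (x1 - p) hb hbr hr.le le_rfl hE
    (by linarith [hp.2]) (by linarith [hpm.1])
  have cRL : ContinuousOn (fun x => RL n x0 x1 t1 t2 g ζ (x, τ)) (Icc x0 x1) :=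
    prim_c F.hx.le (kLc F hDW hb Z) hτ
  have cIn : ContinuousOn (fun x => ∫ y in x0..x, kLt n x0 x1 t1 t2 g h3 ht ζ ζ1 (y, τ))
      (Icc x0 x1) := prim_c F.hx.le (kLtc F hDW hb Z) hτ
  have cPhi : ContinuousOn (fun x => w (RL n x0 x1 t1 t2 g ζ (x, τ)) *
      ∫ y in x0..x, kLt n x0 x1 t1 t2 g h3 ht ζ ζ1 (y, τ)) (Icc x0 x1) :=
    (FC.c1.comp_continuousOn cRL).mul cIn
  have hi : ∀ u v, u ∈ Icc x0 x1 → v ∈ Icc x0 x1 →
      IntervalIntegrable (fun x => w (RL n x0 x1 t1 t2 g ζ (x, τ)) *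
        ∫ y in x0..x, kLt n x0 x1 t1 t2 g h3 ht ζ ζ1 (y, τ)) volume u v := by
    intro u v hu hv
    apply ContinuousOn.intervalIntegrable
    exact cPhi.mono (uIcc_subset_Icc hu hv)
  have z0 : ∀ x ∈ Icc x0 p, ∫ y in x0..x, kLt n x0 x1 t1 t2 g h3 ht ζ ζ1 (y, τ) = 0 := by
    intro x hx
    have h : ∫ y in x0..x, kLt n x0 x1 t1 t2 g h3 ht ζ ζ1 (y, τ) = ∫ _y in x0..x, (0 : ℝ) := by
      apply intervalIntegral.integral_congr
      intro y hy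
      rw [uIcc_of_le hx.1] at hy
      have hm := F.mF_mono (τ := τ) hy.1 (hy.2.trans hx.2)
      rw [hmp] at hm
      simp only [kLt]
      rw [(Z.lo _ hm).1, (Z.lo _ hm).2, zero_mul, zero_mul, neg_zero, add_zero]
    rw [h, intervalIntegral.integral_zero]
  rw [← intervalIntegral.integral_add_adjacent_intervals (hi x0 p hx0m hpm) (hi p x1 hpm hx1m)]
  have z1 : ∫ x in x0..p, w (RL n x0 x1 t1 t2 g ζ (x, τ)) *
      ∫ y in x0..x, kLt n x0 x1 t1 t2 g h3 ht ζ ζ1 (y, τ) = ∫ _x in x0..p, (0 : ℝ) := by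
    apply intervalIntegral.integral_congr
    intro x hx
    rw [uIcc_of_le hpm.1] at hx
    simp only
    rw [z0 x hx, mul_zero]
  have z2 : ∫ x in p..x1, w (RL n x0 x1 t1 t2 g ζ (x, τ)) *
      ∫ y in x0..x, kLt n x0 x1 t1 t2 g h3 ht ζ ζ1 (y, τ) =
      ∫ x in p..x1, w (RL n x0 x1 t1 t2 g ζ (x, τ)) *
        ∫ y in p..x, kft n (fun x => g (x, τ)) (fun x => h3 (x, τ)) (fun x => ht (x, τ))
          (fun x => mF x0 x1 t1 t2 g (x, τ)) ζ ζ1 y := by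
    apply intervalIntegral.integral_congr
    intro x hx
    rw [uIcc_of_le hp.2] at hx
    have hxm := hsub x hx
    simp only
    congr 1
    rw [← intervalIntegral.integral_add_adjacent_intervals
      (sl_int (kLtc F hDW hb Z) hτ hx0m hpm) (sl_int (kLtc F hDW hb Z) hτ hpm hxm),
      z0 p ⟨hpm.1, le_rfl⟩, zero_add]
    rfl
  rw [z1, intervalIntegral.integral_zero, zero_add, z2]
  exact key.trans key2

/-- FWD, the forward estimate -/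
theorem fwd (hWS : S_WS) (hPSI : S_PSI) (hSLA : S_SLA) (hEPS : S_EPS) (hHSM : S_HSM) :
    S_FWD := by
  intro n x0 x1 t1 t2 W D s g h1 h2 h3 ht S θ hθ
  have F := S.F
  have J := S.J
  have hDW := S.DW
  have hn := S.hn
  obtain ⟨M, c, Pm, Gm, Hm, Bd⟩ := F.exists_bds J hDW
  obtain ⟨B, hB, hcuts, -⟩ := exists_cuts2
  obtain ⟨C, hC, hWS'⟩ := hWS n hn
  have hDm : MeasurableSet D := F.D_open.measurableSet
  have hEi : IntegrableOn (eV n x0 x1 D univ g h3) (Ioc t1 t2) :=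
    tail_integrable hDm MeasurableSet.univ S.fin
  have hFd : ∀ z ∈ D, 0 ≤ Fd n g h3 z := fun z hz =>
    mul_nonneg (Real.rpow_nonneg (F.g_pos z hz).le _) (sq_nonneg _)
  have hE0 : ∀ τ, 0 ≤ eV n x0 x1 D univ g h3 τ := fun τ => eV_nonneg hFd univ τ
  obtain ⟨T, hT⟩ : ∃ T : ℝ, T = ∫ τ in Ioc t1 t2, (1 + eV n x0 x1 D univ g h3 τ) := ⟨_, rfl⟩
  have hT0 : 0 ≤ T := by
    rw [hT]
    exact setIntegral_nonneg measurableSet_Ioc (fun τ _ => by linarith [hE0 τ])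
  have hTi : IntegrableOn (fun τ => 1 + eV n x0 x1 D univ g h3 τ) (Ioc t1 t2) :=
    (integrableOn_const (by rw [Real.volume_Ioc]; exact ENNReal.ofReal_ne_top)).add hEi
  have hθ' : 0 < θ / (1 + T) := by positivity
  obtain ⟨r, hr, hr'⟩ := hEPS n C B (x1 - x0) Pm (θ / (1 + T)) hn hC (by linarith)
    (by linarith [F.hx]) hθ'
  obtain ⟨b00, hb00, hH⟩ := hHSM n x0 x1 t1 t2 W D s g h1 h3 ht F r hr
  have hx1m : x1 ∈ Icc x0 x1 := ⟨F.hx.le, le_rfl⟩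
  have hcm : ContinuousOn (fun t => mF x0 x1 t1 t2 g (x1, t)) (Icc t1 t2) :=
    (F.mF_cont.comp (show Continuous fun t : ℝ => (x1, t) by fun_prop)).continuousOn
  obtain ⟨τ0, hτ0, hmin⟩ := isCompact_Icc.exists_isMinOn (nonempty_Icc.2 F.htt.le) hcm
  have hm0 : 0 < mF x0 x1 t1 t2 g (x1, τ0) := F.mF_pos hx1m hτ0 (F.s_mem τ0 hτ0).2
  refine ⟨min (min 1 r) (min (b00 / 3) (mF x0 x1 t1 t2 g (x1, τ0))), by positivity, ?_⟩
  intro b hb hbb ζ ζ1 Z t' ht' x hx hxs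
  have hb1 : b ≤ 1 := hbb.le.trans ((min_le_left _ _).trans (min_le_left _ _))
  have hbr : b ≤ r := hbb.le.trans ((min_le_left _ _).trans (min_le_right _ _))
  have hb3 : 3 * b ≤ b00 := by
    have : b ≤ b00 / 3 := hbb.le.trans ((min_le_right _ _).trans (min_le_left _ _))
    linarith
  have hbm : ∀ τ ∈ Icc t1 t2, b ≤ mF x0 x1 t1 t2 g (x1, τ) := fun τ hτ =>
    (hbb.le.trans ((min_le_right _ _).trans (min_le_right _ _))).trans (hmin hτ)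
  have hN0 : 0 < b ^ (-(3 : ℝ)) := Real.rpow_pos_of_pos hb _
  obtain ⟨Fr, w, w1, FC⟩ := hcuts (b ^ (-(3 : ℝ))) hN0
  by_contra hcon
  push Not at hcon
  have hRz : ∀ y ∈ Icc x0 x1, y ≤ s t1 → RL n x0 x1 t1 t2 g ζ (y, t1) = 0 := by
    intro y hy hys
    have ht1 : t1 ∈ Icc t1 t2 := ⟨le_rfl, F.htt.le⟩
    apply RL_zero F Z hy
    rw [F.mF_zero hy ht1 (by
      rw [F.D_iff y hy t1 ht1]
      exact not_lt.2 hys)]
    exact hb.le
  rcases eq_or_lt_of_le ht'.1 with h | h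
  · rw [← h, hRz x hx (by linarith)] at hcon
    linarith
  have hle : ∀ᵐ τ ∂(volume.restrict (Ioc t1 t')), ∫ x in x0..x1,
      w (RL n x0 x1 t1 t2 g ζ (x, τ)) *
        ∫ y in x0..x, kLt n x0 x1 t1 t2 g h3 ht ζ ζ1 (y, τ) ≤
      θ / (1 + T) * (1 + eV n x0 x1 D univ g h3 τ) := by
    have hae := tail_ae hDm S.fin
    rw [ae_restrict_iff' measurableSet_Ioc] at hae ⊢
    filter_upwards [hae] with τ hτ hτm
    have hτm' : τ ∈ Ioc t1 t2 := ⟨hτm.1, hτm.2.trans ht'.2⟩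
    exact time_est S hSLA hC hWS' hr' hH Bd (by linarith) hr hb hb1 hbr hb3 Z FC
      ⟨hτm'.1.le, hτm'.2⟩ (hbm τ ⟨hτm'.1.le, hτm'.2⟩) (hτ hτm')
  have hsubT : Ioc t1 t' ⊆ Ioc t1 t2 := Ioc_subset_Ioc_right ht'.2
  have hpsi := hPSI n x0 x1 t1 t2 W D s g h1 h2 h3 ht S b B (b ^ (-(3 : ℝ))) ζ ζ1 Fr w w1 hb Z FC
    t1 t' le_rfl h ht'.2 (fun τ => θ / (1 + T) * (1 + eV n x0 x1 D univ g h3 τ))
    ((hTi.mono_set hsubT).const_mul _) hle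
  have hint1 : ∫ τ in Ioc t1 t', θ / (1 + T) * (1 + eV n x0 x1 D univ g h3 τ) < θ := by
    rw [integral_const_mul]
    have h1 : ∫ τ in Ioc t1 t', (1 + eV n x0 x1 D univ g h3 τ) ≤ T := by
      rw [hT]
      apply setIntegral_mono_set hTi
      · exact Eventually.of_forall (fun τ => by
          show (0 : ℝ) ≤ 1 + eV n x0 x1 D univ g h3 τ
          linarith [hE0 τ])
      · exact (Eventually.of_forall hsubT)
    have h2 : θ / (1 + T) * ∫ τ in Ioc t1 t', (1 + eV n x0 x1 D univ g h3 τ) ≤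
        θ / (1 + T) * T := mul_le_mul_of_nonneg_left h1 hθ'.le
    have h3 : θ / (1 + T) * T < θ := by
      rw [div_mul_eq_mul_div, div_lt_iff₀ (by linarith)]
      nlinarith
    linarith
  have hcF : ∀ τ ∈ Icc t1 t2, ContinuousOn (fun x => 1 - Fr (RL n x0 x1 t1 t2 g ζ (x, τ)))
      (Icc x0 x1) := fun τ hτ => continuousOn_const.sub
        (FC.c0.comp_continuousOn (prim_c F.hx.le (kLc F hDW hb Z) hτ))
  have hiF : ∀ τ ∈ Icc t1 t2, ∀ u v, u ∈ Icc x0 x1 → v ∈ Icc x0 x1 →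
      IntervalIntegrable (fun x => 1 - Fr (RL n x0 x1 t1 t2 g ζ (x, τ))) volume u v := by
    intro τ hτ u v hu hv
    apply ContinuousOn.intervalIntegrable
    exact (hcF τ hτ).mono (uIcc_subset_Icc hu hv)
  have hx0m : x0 ∈ Icc x0 x1 := ⟨le_rfl, F.hx.le⟩
  have ht1m : t1 ∈ Icc t1 t2 := ⟨le_rfl, F.htt.le⟩
  have hst1 := F.s_mem t1 ht1m
  have hs1m : s t1 ∈ Icc x0 x1 := ⟨hst1.1.le, hst1.2.le⟩
  have hup : Psi n x0 x1 t1 t2 g ζ Fr t1 ≤ x1 - s t1 := by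
    unfold Psi
    rw [← intervalIntegral.integral_add_adjacent_intervals (hiF t1 ht1m x0 (s t1) hx0m hs1m)
      (hiF t1 ht1m (s t1) x1 hs1m hx1m)]
    have z1 : ∫ x in x0..(s t1), (1 - Fr (RL n x0 x1 t1 t2 g ζ (x, t1))) =
        ∫ _x in x0..(s t1), (0 : ℝ) := by
      apply intervalIntegral.integral_congr
      intro y hy
      rw [uIcc_of_le hst1.1.le] at hy
      simp only
      rw [hRz y ⟨hy.1, hy.2.trans hst1.2.le⟩ hy.2, (FC.lo 0 hN0.le).1, sub_self]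
    have z2 : ∫ x in (s t1)..x1, (1 - Fr (RL n x0 x1 t1 t2 g ζ (x, t1))) ≤
        ∫ _x in (s t1)..x1, (1 : ℝ) := by
      apply intervalIntegral.integral_mono_on hst1.2.le (hiF t1 ht1m (s t1) x1 hs1m hx1m)
        intervalIntegrable_const
      intro y _
      linarith [(FC.F01 (RL n x0 x1 t1 t2 g ζ (y, t1))).1]
    rw [intervalIntegral.integral_const, smul_eq_mul, mul_one] at z2
    rw [z1, intervalIntegral.integral_zero, zero_add]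
    exact z2
  have hlo : x1 - x ≤ Psi n x0 x1 t1 t2 g ζ Fr t' := by
    unfold Psi
    rw [← intervalIntegral.integral_add_adjacent_intervals (hiF t' ht' x0 x hx0m hx)
      (hiF t' ht' x x1 hx hx1m)]
    have z1 : 0 ≤ ∫ y in x0..x, (1 - Fr (RL n x0 x1 t1 t2 g ζ (y, t'))) := by
      apply intervalIntegral.integral_nonneg hx.1
      intro y _
      linarith [(FC.F01 (RL n x0 x1 t1 t2 g ζ (y, t'))).2]
    have z2 : ∫ y in x..x1, (1 - Fr (RL n x0 x1 t1 t2 g ζ (y, t'))) = ∫ _y in x..x1, (1 : ℝ) := by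
      apply intervalIntegral.integral_congr
      intro y hy
      rw [uIcc_of_le hx.2] at hy
      have hym : y ∈ Icc x0 x1 := ⟨hx.1.trans hy.1, hy.2⟩
      have h1 := RL_mono F hDW hb Z hx hym hy.1 ht'
      simp only
      rw [(FC.hi _ (hcon.le.trans h1)).1, sub_zero]
    rw [z2, intervalIntegral.integral_const, smul_eq_mul, mul_one]
    linarith
  linarith

end Pool.Agent.Q177.TF
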